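import Pool.Agent.Q26.PD.LG2
import Pool.Agent.Q26.PD.AU

/-!
# Goldbach representations of the multiples of moduli around the elements of automatic sets

Definitions used (in `Pool.Agent.Q26.PD.LG`), for vectors `m` of `s` positive integers:
* `cnt m y₁ y₂`: the number of the primes `p` in `(y₁, y₂]` such that all `m i - p` are primes;
* `nu m p`: the number of different residues of `0, m_1, ..., m_s` modulo `p`;
* `Adm m`: `nu m p < p` for all primes `p` (no local obstruction; for `s = 1`: the number is even);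
* `sing m z`: the product of `(1 - nu m p / p) / (1 - 1 / p) ^ (s + 1)` over the primes `p ≤ z`;
* `Formula ε A X m`: if `Adm m`, then `sing m z` converges for `z → ∞` to some `G > 0`, and
  `|cnt m y₁ y₂ - G (y₂ - y₁) / log ^ (s + 1) X| ≤ ε G (y₂ - y₁) / log ^ (s + 1) X` for ALL `y₁ < y₂ ≤ X` with
  `y₂ - y₁ ≥ X / log ^ A X` and `y₂ < m i` for all `i`.
-/

set_option autoImplicit false

namespace Pool.Agent.Results.MP_92f640_nt.AutomaticModuliCommonPrimes

open Finset Pool.Agent.Q26.PD.LG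

open Classical in
/-- The elements `v < X` of the automatic set given by the base `b` and the automaton `M`: the integers whose base
`b` digits are accepted by `M`. -/
noncomputable def aut {σ : Type} (b : ℕ) (M : DFA ℕ σ) (X : ℕ) : Finset ℕ :=
  (range X).filter fun v => Nat.digits b v ∈ M.accepts

/-- The number of the ordered representations of `n` as a sum of two primes. -/
def g (n : ℕ) : ℕ := ((range (n + 1)).filter (fun p => p.Prime ∧ (n - p).Prime)).card

/-- For ALL vectors `q` of positive integers with `|q i - v i| ≤ log ^ R X` for all `i` and ALL vectors `n` of multiples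
`n i = j i q i` with `1 ≤ j i ≤ J` and `X / 2 < n i ≤ X`: the number of the common primes `p` in the Goldbach
representations of the `n i` is as predicted in all windows, and if `s = 1` and `n` is even then `g(n) ≥ n / (2 log ^ 2 n)`. -/
def Holds {s : ℕ} (ε : ℝ) (A R J X : ℕ) (v : Fin s → ℤ) : Prop :=
  ∀ q : Fin s → ℕ, (∀ i, |(q i : ℝ) - v i| ≤ Real.log X ^ R) → ∀ j : Fin s → ℕ, (∀ i, 1 ≤ j i ∧ j i ≤ J) →
    (∀ i, X < 2 * (j i * q i) ∧ j i * q i ≤ X) →
    Formula ε A X (fun i => j i * q i) ∧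
    (s = 1 → ∀ i, Even (j i * q i) → ((j i * q i : ℕ) : ℝ) / (2 * Real.log ((j i * q i : ℕ) : ℝ) ^ 2) ≤ g (j i * q i))

lemma prod_low (z : ℕ) (hz : 2 ≤ z) :
    (z : ℝ) / (2 * ((z : ℝ) - 1)) ≤ ∏ q ∈ (Icc 3 z).filter Nat.Prime, (1 - 1 / ((q : ℝ) - 1) ^ 2) := by
  induction z, hz using Nat.le_induction with
  | base => norm_num
  | succ z hz ih =>
    have hz2 : (2 : ℝ) ≤ z := by exact_mod_cast hz
    have e1 : (z : ℝ) / (2 * ((z : ℝ) - 1)) * (1 - 1 / (z : ℝ) ^ 2) = ((z : ℝ) + 1) / (2 * z) := by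
      have : (z : ℝ) - 1 ≠ 0 := by linarith
      field_simp
      ring
    have hpos : 0 < (z : ℝ) / (2 * ((z : ℝ) - 1)) := by
      apply div_pos (by linarith)
      linarith
    have hz1 : (0 : ℝ) ≤ 1 / (z : ℝ) ^ 2 := by positivity
    have hz3 : 1 / (z : ℝ) ^ 2 ≤ 1 := by
      rw [div_le_one (by positivity)]
      nlinarith
    have hlow : ((z : ℝ) + 1) / (2 * z) ≤ (z : ℝ) / (2 * ((z : ℝ) - 1)) := by
      rw [← e1]
      exact mul_le_of_le_one_right hpos.le (by linarith)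
    have hIcc : Icc 3 (z + 1) = insert (z + 1) (Icc 3 z) := by
      ext a
      rw [mem_insert, mem_Icc, mem_Icc]
      omega
    have hcast : (((z + 1 : ℕ) : ℝ)) = (z : ℝ) + 1 := by push_cast; ring
    rw [hIcc, filter_insert]
    split_ifs with hp
    · rw [prod_insert (by simp), hcast, add_sub_cancel_right, ← e1, mul_comm]
      exact mul_le_mul_of_nonneg_left ih (by linarith)
    · rw [hcast, add_sub_cancel_right]
      exact hlow.trans ih

/-- the singular series of one even number is at least `1` -/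
lemma one_le_sing (m : Fin 1 → ℕ) (hm : Even (m 0)) (z : ℕ) (hz : 2 ≤ z) : 1 ≤ sing m z := by
  have hz2 : (2 : ℝ) ≤ z := by exact_mod_cast hz
  have hnu : ∀ q, nu m q ≤ 2 := by
    intro q
    unfold nu
    refine (card_insert_le _ _).trans ?_
    have : (univ.image fun i : Fin 1 => m i % q).card ≤ 1 := card_image_le.trans (by simp)
    omega
  have hnu2 : nu m 2 = 1 := by
    have h1 := (adm_one m).2 hm 2 Nat.prime_two
    have h2 : 1 ≤ nu m 2 := by
      unfold nu
      exact card_pos.2 ⟨0, mem_insert_self _ _⟩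
    omega
  have hsplit : (Icc 1 z).filter Nat.Prime = insert 2 ((Icc 3 z).filter Nat.Prime) := by
    ext a
    rw [mem_insert, mem_filter, mem_filter, mem_Icc, mem_Icc]
    constructor
    · rintro ⟨h1, h2⟩
      have := h2.two_le
      rcases eq_or_ne a 2 with h | h
      · exact Or.inl h
      · exact Or.inr ⟨⟨by omega, h1.2⟩, h2⟩
    · rintro (h | ⟨h1, h2⟩)
      · subst h
        exact ⟨⟨by norm_num, hz⟩, Nat.prime_two⟩
      · exact ⟨⟨by omega, h1.2⟩, h2⟩
  unfold sing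
  rw [hsplit, prod_insert (by simp), hnu2]
  have h1 : (1 : ℝ) / 2 ≤ ∏ q ∈ (Icc 3 z).filter Nat.Prime, (1 - (nu m q : ℝ) / q) / (1 - 1 / (q : ℝ)) ^ (1 + 1) := by
    calc (1 : ℝ) / 2 ≤ (z : ℝ) / (2 * ((z : ℝ) - 1)) := by
          rw [div_le_div_iff₀ (by norm_num) (by linarith)]
          linarith
      _ ≤ ∏ q ∈ (Icc 3 z).filter Nat.Prime, (1 - 1 / ((q : ℝ) - 1) ^ 2) := prod_low z hz
      _ ≤ _ := by
          apply prod_le_prod
          · intro q hq
            have h3 : (3 : ℝ) ≤ q := by exact_mod_cast (mem_Icc.1 (mem_filter.1 hq).1).1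
            have h4 : 1 / ((q : ℝ) - 1) ^ 2 ≤ 1 := by
              rw [div_le_one (by nlinarith)]
              nlinarith
            linarith
          · intro q hq
            have h3 : (3 : ℝ) ≤ q := by exact_mod_cast (mem_Icc.1 (mem_filter.1 hq).1).1
            have h4 : (nu m q : ℝ) ≤ 2 := by exact_mod_cast hnu q
            have h5 : 0 < (1 - 1 / (q : ℝ)) := by
              rw [sub_pos, div_lt_one (by linarith)]
              linarith
            have e1 : 1 - 1 / ((q : ℝ) - 1) ^ 2 = (1 - 2 / q) / (1 - 1 / (q : ℝ)) ^ (1 + 1) := by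
              have a1 : (q : ℝ) - 1 ≠ 0 := by linarith
              have a2 : (q : ℝ) ≠ 0 := by linarith
              have a3 : 1 - 1 / (q : ℝ) = (q - 1) / q := by field_simp
              rw [a3, div_pow]
              field_simp
              ring
            rw [e1]
            apply div_le_div_of_nonneg_right _ (by positivity)
            have : (nu m q : ℝ) / q ≤ 2 / q := div_le_div_of_nonneg_right h4 (by linarith)
            linarith
  calc (1 : ℝ) = 2 * (1 / 2) := by norm_num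
    _ ≤ (1 - ((1 : ℕ) : ℝ) / ((2 : ℕ) : ℝ)) / (1 - 1 / ((2 : ℕ) : ℝ)) ^ (1 + 1) *
        ∏ q ∈ (Icc 3 z).filter Nat.Prime, (1 - (nu m q : ℝ) / q) / (1 - 1 / (q : ℝ)) ^ (1 + 1) := by
      have e2 : (1 - ((1 : ℕ) : ℝ) / ((2 : ℕ) : ℝ)) / (1 - 1 / ((2 : ℕ) : ℝ)) ^ (1 + 1) = 2 := by norm_num
      rw [e2]
      exact mul_le_mul_of_nonneg_left h1 (by norm_num)

/-- the lower bound for `g` -/
lemma g_low (A : ℕ) : ∃ X₀ : ℕ, ∀ X, X₀ ≤ X → ∀ ε : ℝ, ε ≤ 1 / 8 → ∀ m : Fin 1 → ℕ, Formula ε (A + 1) X m → X < 2 * m 0 → m 0 ≤ X →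
    Even (m 0) → (m 0 : ℝ) / (2 * Real.log (m 0) ^ 2) ≤ g (m 0) := by
  obtain ⟨n1, h1⟩ := Pool.Agent.H373R2.T7.ev_L' 16
  refine ⟨n1 + 16, fun X hX ε hε m hF h2 h3 heven => ?_⟩
  have hL := h1 X (by omega)
  obtain ⟨G, hG, hlim, hwin⟩ := hF ((adm_one m).2 heven)
  have hG1 : 1 ≤ G := by
    apply ge_of_tendsto hlim
    filter_upwards [Filter.eventually_ge_atTop 2] with z hz
    exact one_le_sing m heven z hz
  obtain ⟨n, hn⟩ : ∃ n, n = m 0 := ⟨_, rfl⟩
  rw [← hn] at h2 h3 ⊢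
  have hn0 : (8 : ℝ) ≤ n := by exact_mod_cast (by omega : 8 ≤ n)
  have hX0 : (0 : ℝ) < X := by exact_mod_cast (by omega : 0 < X)
  have hXn : (X : ℝ) ≤ 2 * n := by exact_mod_cast h2.le
  have hnX : (n : ℝ) ≤ X := by exact_mod_cast h3
  obtain ⟨L, hLd⟩ : ∃ L, L = Real.log (X : ℝ) := ⟨_, rfl⟩
  rw [← hLd] at hL
  have hln : Real.log n ≤ L := by rw [hLd]; exact Real.log_le_log (by linarith) hnX
  have hln2 : L ≤ Real.log n + 1 := by
    have h5 : L ≤ Real.log (2 * n) := by rw [hLd]; exact Real.log_le_log hX0 hXn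
    rw [Real.log_mul (by norm_num) (by linarith)] at h5
    linarith [Real.log_two_lt_d9]
  have hlen : (X : ℝ) / Real.log X ^ (A + 1) ≤ ((n - 1 : ℕ) : ℝ) - (0 : ℕ) := by
    rw [← hLd, Nat.cast_sub (by omega), Nat.cast_one, Nat.cast_zero, sub_zero]
    have h5 : (X : ℝ) / L ^ (A + 1) ≤ X / 16 := by
      apply div_le_div_of_nonneg_left hX0.le (by norm_num)
      calc (16 : ℝ) ≤ L := hL
        _ = L ^ 1 := (pow_one L).symm
        _ ≤ L ^ (A + 1) := pow_le_pow_right₀ (by linarith) (by omega)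
    linarith
  have h4 := hwin 0 (n - 1) (by omega) (fun i => by
    rw [Subsingleton.elim i 0, ← hn]
    omega) hlen
  rw [← hLd, Nat.cast_sub (by omega), Nat.cast_one, Nat.cast_zero, sub_zero] at h4
  have hcg : cnt m 0 (n - 1) ≤ g n := by
    unfold cnt g
    apply card_le_card
    intro p hp
    rw [mem_filter, mem_Ioc] at hp
    rw [mem_filter, mem_range]
    refine ⟨by omega, hp.2.1, ?_⟩
    have := hp.2.2 0
    rwa [← hn] at this
  have hcg' : (cnt m 0 (n - 1) : ℝ) ≤ g n := by exact_mod_cast hcg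
  have hmain : 0 ≤ G * (((n : ℝ) - 1) / L ^ (1 + 1)) := by
    have : 0 ≤ (n : ℝ) - 1 := by linarith
    have : 0 < L ^ (1 + 1) := by positivity
    positivity
  have h6 : 7 / 8 * (G * (((n : ℝ) - 1) / L ^ (1 + 1))) ≤ g n := by
    have h7 := mul_le_mul_of_nonneg_right hε hmain
    rw [abs_le] at h4
    linarith [h4.1]
  have h8 : 7 / 8 * (((n : ℝ) - 1) / L ^ 2) ≤ 7 / 8 * (G * (((n : ℝ) - 1) / L ^ (1 + 1))) := by
    have : 0 ≤ ((n : ℝ) - 1) / L ^ 2 := by
      have : 0 ≤ (n : ℝ) - 1 := by linarith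
      positivity
    have h9 : ((n : ℝ) - 1) / L ^ 2 ≤ G * (((n : ℝ) - 1) / L ^ (1 + 1)) := by
      calc ((n : ℝ) - 1) / L ^ 2 = 1 * (((n : ℝ) - 1) / L ^ 2) := (one_mul _).symm
        _ ≤ G * (((n : ℝ) - 1) / L ^ (1 + 1)) := mul_le_mul_of_nonneg_right hG1 this
    linarith
  refine le_trans ?_ (h8.trans h6)
  obtain ⟨l, hl⟩ : ∃ l, l = Real.log (n : ℝ) := ⟨_, rfl⟩
  rw [← hl] at hln hln2 ⊢
  have hl15 : 15 ≤ l := by linarith
  have hLl : L ^ 2 ≤ 5 / 4 * l ^ 2 := by nlinarith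
  rw [← mul_div_assoc, div_le_div_iff₀ (by positivity) (by positivity)]
  have h10 : (n : ℝ) * L ^ 2 ≤ n * (5 / 4 * l ^ 2) := mul_le_mul_of_nonneg_left hLl (by linarith)
  have h11 : (n : ℝ) * 7 / 8 ≤ n - 1 := by linarith
  have h12 : 0 < l ^ 2 := by positivity
  nlinarith

open Classical in
/-- Let `s ≥ 1`, and let `A 1, ..., A s` be automatic sets, in arbitrary bases `b i ≥ 2`, which are not sparse: the
number of the elements of `A i` below `X` is not bounded by a power of `log X`. Let the integers `κ i ≠ 0`, `J`, `B`,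
`A`, `R`, `U` and `ε > 0` be fixed. Let `X` be large, and let the integers `c i` with `|c i| ≤ B X` be arbitrary. All the
vectors `(v 1, ..., v s)` of elements `v i < X` of `A i`, with the exception of a proportion of at most `1 / log ^ U X` of
these vectors, have the following property: for ALL moduli `q i` at distance at most `log ^ R X` from `c i + κ i v i` and ALL
their multiples `n i = j i q i` in `(X / 2, X]`, `j i ≤ J`, without a local obstruction, the number of the common primes `p`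
of the Goldbach representations of the `n i` in ALL windows is as predicted; for `s = 1`: all the even multiples
`n = j q` in `(X / 2, X]`, `j ≤ J`, satisfy `g(n) ≥ n / (2 log ^ 2 n)`, without exception. -/
theorem result (s : ℕ) (hs : 1 ≤ s) (b : Fin s → ℕ) (hb : ∀ i, 2 ≤ b i) (σ : Fin s → Type) (hσ : ∀ i, Finite (σ i))
    (M : ∀ i, DFA ℕ (σ i))
    (hM : ∀ i, ∀ k : ℕ, ∃ᶠ X : ℕ in Filter.atTop, Real.log X ^ k < ((aut (b i) (M i) X).card : ℝ))
    (κ : Fin s → ℤ) (hκ : ∀ i, κ i ≠ 0) (B A R J U : ℕ) (ε : ℝ) (hε : 0 < ε) :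
    ∃ X₀ : ℕ, ∀ X, X₀ ≤ X → ∀ c : Fin s → ℤ, (∀ i, |c i| ≤ (B : ℤ) * X) →
      (((Fintype.piFinset fun i => aut (b i) (M i) X).filter fun v =>
        ¬ Holds ε A R J X (fun i => c i + κ i * (v i : ℤ))).card : ℝ) ≤
      ((Fintype.piFinset fun i => aut (b i) (M i) X).card : ℝ) / Real.log X ^ U := by
  have hex : ∀ j : Fin s → Fin (J + 1), (∀ i, 1 ≤ (j i : ℕ)) → ∃ X₀ : ℕ, ∀ X, X₀ ≤ X → ∀ c : Fin s → ℤ, (∀ i, |c i| ≤ ((J * B : ℕ) : ℤ) * X) →
      (((Fintype.piFinset fun i => aut (b i) (M i) X).filter fun v =>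
        ¬ Near (min ε (1 / 8)) (A + 1) (R + 1) X (fun i => c i + ((j i : ℕ) * κ i) * (v i : ℤ))).card : ℝ) ≤
      ((Fintype.piFinset fun i => aut (b i) (M i) X).card : ℝ) / Real.log X ^ (U + 1) := by
    intro j hj
    have hκj : ∀ i, ((j i : ℕ) : ℤ) * κ i ≠ 0 := fun i => mul_ne_zero (by have := hj i; omega) (hκ i)
    have haut := fun i => Pool.Agent.Q26.PD.autZ (b i) (hb i) (M i) (fun k => hM i k) (((j i : ℕ) : ℤ) * κ i) (hκj i)
    choose Bv hBv using haut
    obtain ⟨X₀, h⟩ := fam s hs (fun i => ((j i : ℕ) : ℤ) * κ i) hκj Bv _ hBv (J * B) (A + 1) (R + 1) (U + 1) (min ε (1 / 8))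
      (lt_min hε (by norm_num))
    exact ⟨X₀, fun X hX c hc => h X hX (fun i => aut (b i) (M i) X) (fun i => rfl) c hc⟩
  obtain ⟨T, hT⟩ : ∃ T : Finset (Fin s → Fin (J + 1)), T = univ.filter (fun j => ∀ i, 1 ≤ (j i : ℕ)) := ⟨_, rfl⟩
  have hTm : ∀ j, j ∈ T ↔ ∀ i, 1 ≤ (j i : ℕ) := fun j => by rw [hT, mem_filter]; simp
  have hex' : ∀ j : Fin s → Fin (J + 1), ∃ X₀ : ℕ, (∀ i, 1 ≤ (j i : ℕ)) → ∀ X, X₀ ≤ X → ∀ c : Fin s → ℤ, (∀ i, |c i| ≤ ((J * B : ℕ) : ℤ) * X) →
      (((Fintype.piFinset fun i => aut (b i) (M i) X).filter fun v =>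
        ¬ Near (min ε (1 / 8)) (A + 1) (R + 1) X (fun i => c i + ((j i : ℕ) * κ i) * (v i : ℤ))).card : ℝ) ≤
      ((Fintype.piFinset fun i => aut (b i) (M i) X).card : ℝ) / Real.log X ^ (U + 1) := by
    intro j
    by_cases hj : ∀ i, 1 ≤ (j i : ℕ)
    · obtain ⟨X₀, h⟩ := hex j hj
      exact ⟨X₀, fun _ => h⟩
    · exact ⟨0, fun h => absurd h hj⟩
  choose X0 hX0 using hex'
  obtain ⟨n1, h1⟩ := g_low A
  obtain ⟨n2, h2⟩ := Pool.Agent.H373R2.T7.ev_L' ((T.card : ℝ) + J + 1)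
  refine ⟨∑ j, X0 j + n1 + n2 + 2, fun X hX c hc => ?_⟩
  have hL := h2 X (by omega)
  have hTc : (0 : ℝ) ≤ T.card := Nat.cast_nonneg _
  have hJ0 : (0 : ℝ) ≤ J := Nat.cast_nonneg _
  have hL1 : 1 ≤ Real.log X := by linarith
  obtain ⟨F, hF⟩ : ∃ F, F = Fintype.piFinset fun i => aut (b i) (M i) X := ⟨_, rfl⟩
  rw [← hF]
  have hsub : F.filter (fun v => ¬ Holds ε A R J X (fun i => c i + κ i * (v i : ℤ))) ⊆
      T.biUnion (fun j => F.filter fun v => ¬ Near (min ε (1 / 8)) (A + 1) (R + 1) X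
        (fun i => ((j i : ℕ) : ℤ) * c i + ((j i : ℕ) * κ i) * (v i : ℤ))) := by
    intro v hv
    rw [mem_filter] at hv
    rw [mem_biUnion]
    by_contra hcon
    push Not at hcon
    apply hv.2
    intro q hq j hj hjq
    have hjT : (fun i => (⟨j i, by have := (hj i).2; omega⟩ : Fin (J + 1))) ∈ T := by
      rw [hTm]
      exact fun i => (hj i).1
    have h3 := hcon _ hjT
    rw [mem_filter] at h3
    have h4 : Near (min ε (1 / 8)) (A + 1) (R + 1) X (fun i => ((j i : ℕ) : ℤ) * c i + ((j i : ℕ) * κ i) * (v i : ℤ)) := by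
      by_contra hn
      exact h3 ⟨hv.1, hn⟩
    have h5 := h4 (fun i => j i * q i) (fun i => by
      have e1 : (((j i * q i : ℕ) : ℝ)) - (((((j i : ℕ) : ℤ) * c i + ((j i : ℕ) * κ i) * (v i : ℤ)) : ℤ) : ℝ) =
          (j i : ℝ) * ((q i : ℝ) - ((c i + κ i * (v i : ℤ) : ℤ) : ℝ)) := by
        push_cast
        ring
      rw [e1, abs_mul, Nat.abs_cast, pow_succ, mul_comm (Real.log X ^ R)]
      have e2 : (j i : ℝ) ≤ Real.log X := by
        have : (j i : ℝ) ≤ J := by exact_mod_cast (hj i).2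
        linarith
      exact mul_le_mul e2 (hq i) (abs_nonneg _) (by linarith))
    have h6 := formula_mono _ A X hL1 _ h5.2
    refine ⟨?_, ?_⟩
    · intro hadm
      obtain ⟨G, hG, hlim, h7⟩ := h6 hadm
      refine ⟨G, hG, hlim, fun y₁ y₂ a1 a2 a3 => (h7 y₁ y₂ a1 a2 a3).trans ?_⟩
      apply mul_le_mul_of_nonneg_right (min_le_left _ _)
      have : (0 : ℝ) ≤ (X : ℝ) / Real.log X ^ A := by positivity
      have : 0 ≤ (y₂ : ℝ) - y₁ := by linarith
      positivity
    · intro hs1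
      subst hs1
      intro i heven
      rw [Subsingleton.elim i 0] at heven ⊢
      exact h1 X (by omega) _ (min_le_right _ _) (fun i => j i * q i) h5.2 (hjq 0).1 (hjq 0).2 heven
  have hbnd : ∀ j ∈ T, ((F.filter fun v => ¬ Near (min ε (1 / 8)) (A + 1) (R + 1) X
        (fun i => ((j i : ℕ) : ℤ) * c i + ((j i : ℕ) * κ i) * (v i : ℤ))).card : ℝ) ≤ (F.card : ℝ) / Real.log X ^ (U + 1) := by
    intro j hj
    rw [hTm] at hj
    have hXj : X0 j ≤ ∑ j, X0 j := single_le_sum (f := X0) (fun _ _ => Nat.zero_le _) (mem_univ j)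
    rw [hF]
    refine hX0 j hj X (by omega) (fun i => ((j i : ℕ) : ℤ) * c i) (fun i => ?_)
    rw [abs_mul]
    have e1 : |((j i : ℕ) : ℤ)| ≤ (J : ℤ) := by
      rw [abs_of_nonneg (Int.natCast_nonneg _)]
      have := (j i).2
      omega
    calc |((j i : ℕ) : ℤ)| * |c i| ≤ (J : ℤ) * ((B : ℤ) * X) := mul_le_mul e1 (hc i) (abs_nonneg _) (by positivity)
      _ = ((J * B : ℕ) : ℤ) * X := by push_cast; ring
  calc ((F.filter (fun v => ¬ Holds ε A R J X (fun i => c i + κ i * (v i : ℤ)))).card : ℝ)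
      ≤ ((T.biUnion (fun j => F.filter fun v => ¬ Near (min ε (1 / 8)) (A + 1) (R + 1) X
        (fun i => ((j i : ℕ) : ℤ) * c i + ((j i : ℕ) * κ i) * (v i : ℤ)))).card : ℝ) := by
        exact_mod_cast card_le_card hsub
    _ ≤ ∑ j ∈ T, ((F.filter fun v => ¬ Near (min ε (1 / 8)) (A + 1) (R + 1) X
        (fun i => ((j i : ℕ) : ℤ) * c i + ((j i : ℕ) * κ i) * (v i : ℤ))).card : ℝ) := by
        exact_mod_cast card_biUnion_le
    _ ≤ ∑ _j ∈ T, (F.card : ℝ) / Real.log X ^ (U + 1) := sum_le_sum hbnd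
    _ = (T.card : ℝ) * ((F.card : ℝ) / Real.log X ^ (U + 1)) := by rw [sum_const, nsmul_eq_mul]
    _ ≤ Real.log X * ((F.card : ℝ) / Real.log X ^ (U + 1)) := mul_le_mul_of_nonneg_right (by linarith) (by positivity)
    _ = (F.card : ℝ) / Real.log X ^ U := by
        rw [pow_succ]
        field_simp

end Pool.Agent.Results.MP_92f640_nt.AutomaticModuliCommonPrimes
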