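import Pool.Agent.TH935.GF
import Pool.Agent.TH894.SM0
import Pool.Agent.W93.GB1
import Pool.Agent.Q56.TF.Typ
import Pool.Agent.Q56.TF.Ord
import Pool.Agent.Q56.TF.Mul

/-!
# Goldbach representations of all multiples of `q`, for all moduli `q` in windows around real sequences

The moduli `q` are all the positive integers at a distance of at most `log ^ A N` from `r m`, for almost all `m ≤ x`,
where `r 1, ..., r x` is an arbitrary family of real numbers of nearly minimal energy; for instance the (real)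
values `β + κ₀ f m` of a polynomial `f` with integer coefficients, with arbitrary real `κ₀ ≠ 0` and `β`, or of a
generalised polynomial `f t = ∑ w_y t ^ y` whose largest exponent is greater than `1` and not an integer
(`f t = t ^ c`: the sequences of Piatetski-Shapiro). For each of these `q` and all `X ≤ q log ^ κ q` the assertion of
the problem holds without any exceptions among the even multiples of `q`.

From Mathlib: `n.primeFactors`: the set of the prime divisors of `n`; `Polynomial ℤ`, `f.eval m`: polynomials and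
their values; `Finset.Ioc y₁ y₂`: the integers `p` with `y₁ < p ≤ y₂`.
The asymptotic formula for families of integers is from the starting files (`Pool.Agent.TH935.GF.fam_win`), as is
the inequality `𝔖(n) ≥ 1` (`Pool.Agent.W93.GB.one_le_sing`).
-/

set_option autoImplicit false

namespace Pool.Agent.Results.MP_92f640_nt.ModuliNearRealSequences

open Finset

open Classical in
/-- The energy of order `p` of the family of real numbers `r 1, ..., r x`: the number of the pairs `v`, `w` of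
`p`-tuples of elements of `{1, ..., x}` such that `r (v 1) + ... + r (v p)` and `r (w 1) + ... + r (w p)` differ
by at most `1`. -/
noncomputable def energy (p x : ℕ) (r : ℕ → ℝ) : ℕ :=
  (((Fintype.piFinset fun _ : Fin p => Icc 1 x) ×ˢ (Fintype.piFinset fun _ : Fin p => Icc 1 x)).filter
    (fun q => |∑ i, r (q.1 i) - ∑ i, r (q.2 i)| ≤ 1)).card

/-- The twin prime constant `C₂ = ∏_{p > 2} (1 - 1 / (p - 1) ^ 2)`: the infimum of the decreasing partial products
over the primes `3 ≤ p ≤ z`. -/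
noncomputable def C₂ : ℝ := ⨅ z : ℕ, ∏ p ∈ (Icc 3 z).filter Nat.Prime, (1 - 1 / ((p : ℝ) - 1) ^ 2)

/-- The singular series `2 C₂ ∏_{p ∣ n, p > 2} (p - 1) / (p - 2)`. -/
noncomputable def sing (n : ℕ) : ℝ :=
  2 * C₂ * ∏ p ∈ n.primeFactors.filter (fun p => 2 < p), ((p : ℝ) - 1) / ((p : ℝ) - 2)

/-- The number of the primes `p` with `y₁ < p ≤ y₂` such that `n - p` is a prime. -/
def reps (n y₁ y₂ : ℕ) : ℕ := ((Ioc y₁ y₂).filter (fun p => p.Prime ∧ (n - p).Prime)).card

/-- `g n`: the number of the ordered representations of `n` as a sum of two primes `p`, `n - p`. -/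
def g (n : ℕ) : ℕ := reps n 0 n

/-- The even multiples `n` of `q` with `X / 2 < n ≤ X` and `g n < δ n / (log n)²`, as in the problem. -/
def few (δ X : ℝ) (q : ℕ) : Set ℕ :=
  {n : ℕ | X / 2 < n ∧ (n : ℝ) ≤ X ∧ 2 ∣ n ∧ q ∣ n ∧ (g n : ℝ) < δ * (n / Real.log n ^ 2)}

/-- The modulus `q` is regular: (1) for EVERY even multiple `n` of `q` with `0 < n ≤ q log ^ κ q`, in every interval
`(y₁, y₂]` with `y₂ ≤ n` of length at least `n / log ^ V n` the number of the primes `p` such that `n - p` is a prime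
agrees with the prediction `𝔖(n) (y₂ - y₁) / log² n` of Hardy and Littlewood up to a relative error of at most `ε`;
(2) for every real `X ≤ q log ^ κ q` NO even multiple `n` of `q` in `(X / 2, X]` has `g n < n / (2 log² n)`. -/
def Regular (ε : ℝ) (V κ q : ℕ) : Prop :=
  (∀ n : ℕ, 0 < n → Even n → q ∣ n → (n : ℝ) ≤ q * Real.log q ^ κ →
    ∀ y₁ y₂ : ℕ, y₁ < y₂ → y₂ ≤ n → (n : ℝ) / Real.log n ^ V ≤ (y₂ : ℝ) - y₁ →
    |(reps n y₁ y₂ : ℝ) - sing n * ((y₂ : ℝ) - y₁) / Real.log n ^ 2| ≤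
      ε * (sing n * ((y₂ : ℝ) - y₁) / Real.log n ^ 2)) ∧
  ∀ X : ℝ, X ≤ q * Real.log q ^ κ → few (1 / 2) X q = ∅

open Classical in
/-- The number of the `m` in `{1, ..., x}` for which not all positive integers `q` at a distance of at most `w` from
`r m` have the property `G`. -/
noncomputable def exceptions (x : ℕ) (r : ℕ → ℝ) (w : ℝ) (G : ℕ → Prop) : ℕ :=
  ((Icc 1 x).filter (fun m => ∃ q : ℕ, 0 < q ∧ |(q : ℝ) - r m| ≤ w ∧ ¬ G q)).card

/-- The bound at scale `N` for the windows around the `r m`, `m ≤ x`: for all `m ≤ x` with at most `x / log ^ U N`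
exceptions all positive integers `q` with `|q - r m| ≤ log ^ A N` are regular. -/
def Holds (ε : ℝ) (A V κ U N x : ℕ) (r : ℕ → ℝ) : Prop :=
  (exceptions x r (Real.log N ^ A) (Regular ε V κ) : ℝ) ≤ x / Real.log N ^ U

/-- The sequence `f`, of growth `x ^ e`, has the property at all large scales: for all `x` with
`N / log ^ C N ≤ x ^ e ≤ B N` and all translates `β + f m`, `|β| ≤ B N`. -/
def Sequence (ε : ℝ) (A B C V κ U : ℕ) (f : ℕ → ℝ) (e : ℝ) : Prop :=
  ∃ N₀ : ℕ, ∀ N : ℕ, N₀ ≤ N → ∀ x : ℕ, (x : ℝ) ^ e ≤ B * N → (N : ℝ) ≤ Real.log N ^ C * (x : ℝ) ^ e →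
    ∀ β : ℝ, |β| ≤ B * N → Holds ε A V κ U N x (fun m => β + f m)

/-- the property of one even integer -/
def Good (ε : ℝ) (V n : ℕ) : Prop :=
  (∀ y₁ y₂ : ℕ, y₁ < y₂ → y₂ ≤ n → (n : ℝ) / Real.log n ^ V ≤ (y₂ : ℝ) - y₁ →
    |(reps n y₁ y₂ : ℝ) - sing n * ((y₂ : ℝ) - y₁) / Real.log n ^ 2| ≤
      ε * (sing n * ((y₂ : ℝ) - y₁) / Real.log n ^ 2)) ∧
  1 / 2 * ((n : ℝ) / Real.log n ^ 2) ≤ g n

lemma one_le_sing (n : ℕ) : 1 ≤ sing n := Pool.Agent.W93.GB.one_le_sing n

lemma good_of (ε : ℝ) (V n : ℕ) (hn : 2 ≤ n) (hlog : 1 ≤ Real.log n)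
    (h : Pool.Agent.W93.PG.WinP (min ε (1 / 2)) V n) : Good ε V n := by
  have hn0 : n ≠ 0 := by omega
  have hnr : (0 : ℝ) < n := by exact_mod_cast Nat.pos_of_ne_zero hn0
  have hR : ∀ y₁ y₂, Pool.Agent.W93.PG.cnt n y₁ y₂ = reps n y₁ y₂ := fun _ _ => rfl
  have hs : Pool.Agent.H560R3.GB.sing n = sing n := rfl
  have hs1 := one_le_sing n
  refine ⟨fun y₁ y₂ h1 h2 h3 => ?_, ?_⟩
  · have h4 := h y₁ y₂ h1 h2 h3
    rw [hR, hs] at h4
    refine h4.trans ?_
    apply mul_le_mul_of_nonneg_right (min_le_left _ _)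
    have h5 : (0 : ℝ) ≤ (y₂ : ℝ) - y₁ := by
      have : (y₁ : ℝ) ≤ y₂ := by exact_mod_cast h1.le
      linarith
    have h6 : 0 ≤ sing n := by linarith
    positivity
  · have h1 := h 0 n (Nat.pos_of_ne_zero hn0) le_rfl (by
      push_cast
      rw [sub_zero]
      exact div_le_self hnr.le (one_le_pow₀ hlog))
    rw [hR, hs] at h1
    push_cast at h1
    rw [sub_zero] at h1
    obtain ⟨Q, hQ⟩ : ∃ Q : ℝ, Q = n / Real.log n ^ 2 := ⟨_, rfl⟩
    have hl : 0 < Real.log n := by linarith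
    have hQ0 : 0 < Q := by rw [hQ]; positivity
    have hHL : sing n * (n : ℝ) / Real.log n ^ 2 = sing n * Q := by
      rw [hQ, mul_div_assoc]
    rw [hHL, abs_le] at h1
    rw [← hQ]
    have h2 : min ε (1 / 2) * (sing n * Q) ≤ 1 / 2 * (sing n * Q) := by
      apply mul_le_mul_of_nonneg_right (min_le_right _ _)
      have h6 : 0 ≤ sing n := by linarith
      positivity
    have h3 : Q ≤ sing n * Q := le_mul_of_one_le_left hQ0.le hs1
    have h4 : ((g n : ℕ) : ℝ) = (reps n 0 n : ℝ) := rfl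
    rw [h4]
    linarith [h1.1]

lemma regular_of {ε : ℝ} {V κ q : ℕ} (h : ∀ n : ℕ, 0 < n → Even n → q ∣ n → (n : ℝ) ≤ q * Real.log q ^ κ →
    Good ε V n) : Regular ε V κ q := by
  refine ⟨fun n h1 h2 h3 h4 => (h n h1 h2 h3 h4).1, fun X hX => ?_⟩
  rw [Set.eq_empty_iff_forall_notMem]
  rintro n ⟨h1, h2, h3, h4, h5⟩
  have hn : 0 < n := by
    rcases Nat.eq_zero_or_pos n with hn | hn
    · exfalso
      rw [hn] at h1 h2
      push_cast at h1 h2
      linarith
    · exact hn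
  have h6 := (h n hn (even_iff_two_dvd.2 h3) h4 (h2.trans hX)).2
  linarith

/-- families of integers: few members have a bad even multiple -/
lemma general (p V κ : ℕ) (hp : 1 ≤ p) (ε : ℝ) (hε : 0 < ε) (B C U : ℕ) :
    ∃ N₀ : ℕ, ∀ N : ℕ, N₀ ≤ N → ∀ (ι : Type) [Fintype ι] (v : ι → ℤ), (∀ i, |v i| ≤ B * N) →
      (Pool.Agent.TH935.GF.En p v : ℝ) * N ≤ Real.log N ^ C * (Fintype.card ι : ℝ) ^ (2 * p) →
      ∀ S : Finset ι, (∀ i ∈ S, 0 < v i ∧ ¬ Regular ε V κ (v i).toNat) →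
      (S.card : ℝ) ≤ Fintype.card ι / Real.log N ^ U := by
  classical
  obtain ⟨n1, h1⟩ := Pool.Agent.H373R2.T7.ev_L' 1
  obtain ⟨N₁, h2⟩ := Pool.Agent.Q56.TF.multiples p (2 * κ) (fun c : ℤ => 0 < c ∧ Even c ∧ ¬ Good ε V c.toNat)
    (fun B C U => Pool.Agent.TH935.GF.transfer p B C U (Good ε V)
      (fun B C U => Pool.Agent.TH935.GF.fam_win p B C V U (n1 + 2) hp (min ε (1 / 2)) (lt_min hε (by norm_num))
        (Good ε V) (fun m hm _ hw => good_of ε V m (by omega) (by simpa using h1 m (by omega)) hw))) B C U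
  obtain ⟨n3, h3⟩ := Pool.Agent.H373R2.T7.ev_L' 2
  refine ⟨N₁ + n3 + B + 1, fun N hN ι _ v hv hE S hS => ?_⟩
  refine h2 N (by omega) ι v (fun i => (le_abs_self _).trans (hv i)) hE S ?_
  intro i hi
  obtain ⟨hpos, hreg⟩ := hS i hi
  obtain ⟨q, hq⟩ : ∃ q : ℕ, q = (v i).toNat := ⟨_, rfl⟩
  have hqv : (q : ℤ) = v i := by
    rw [hq]
    exact Int.toNat_of_nonneg hpos.le
  rw [← hq] at hreg
  have hq0 : 0 < q := by
    have : (0 : ℤ) < q := by rw [hqv]; exact hpos
    exact_mod_cast this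
  have h4 : ¬ ∀ n : ℕ, 0 < n → Even n → q ∣ n → (n : ℝ) ≤ q * Real.log q ^ κ → Good ε V n :=
    fun h => hreg (regular_of h)
  push Not at h4
  obtain ⟨n, hn0, hne, ⟨l, hl⟩, hnq, hgood⟩ := h4
  have hl1 : 1 ≤ l := by
    rcases Nat.eq_zero_or_pos l with h | h
    · rw [h] at hl
      omega
    · exact h
  have hqr : (0 : ℝ) < q := by exact_mod_cast hq0
  have hlk : (l : ℝ) ≤ Real.log q ^ κ := by
    rw [hl] at hnq
    push_cast at hnq
    exact le_of_mul_le_mul_left hnq hqr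
  have hN0 : (0 : ℝ) < N := by exact_mod_cast (by omega : 0 < N)
  have hqN : (q : ℝ) ≤ (N : ℝ) * N := by
    have h5 := (le_abs_self _).trans (hv i)
    rw [← hqv] at h5
    have h6 : q ≤ B * N := by exact_mod_cast h5
    have h7 : B * N ≤ N * N := Nat.mul_le_mul_right _ (by omega)
    exact_mod_cast h6.trans h7
  have hL2 : 2 ≤ Real.log (N : ℝ) := h3 N (by omega)
  have hlogq : Real.log q ≤ Real.log N ^ 2 := by
    calc Real.log q ≤ Real.log ((N : ℝ) * N) := Real.log_le_log hqr hqN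
      _ = Real.log N + Real.log N := Real.log_mul hN0.ne' hN0.ne'
      _ ≤ Real.log N ^ 2 := by nlinarith
  have hlogq0 : 0 ≤ Real.log q := Real.log_nonneg (by exact_mod_cast hq0)
  refine ⟨l, hl1, ?_, ?_⟩
  · calc (l : ℝ) ≤ Real.log q ^ κ := hlk
      _ ≤ (Real.log N ^ 2) ^ κ := pow_le_pow_left₀ hlogq0 hlogq _
      _ = Real.log N ^ (2 * κ) := by rw [← pow_mul]
  · have e : (l : ℤ) * v i = ((n : ℕ) : ℤ) := by
      rw [hl, ← hqv]
      push_cast
      ring
    rw [e]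
    refine ⟨by exact_mod_cast hn0, by exact_mod_cast hne, ?_⟩
    simpa using hgood

lemma holds_of (A B V κ U p C : ℕ) (hp : 1 ≤ p) (ε : ℝ) (hε : 0 < ε) :
    ∃ N₀ : ℕ, ∀ N : ℕ, N₀ ≤ N → ∀ (x : ℕ) (r : ℕ → ℝ), Pool.Agent.Q56.TF.Near A p B C N x r →
      Holds ε A V κ U N x r := by
  classical
  obtain ⟨N₁, h1⟩ := general p V κ hp ε hε B C U
  refine ⟨N₁, fun N hN x r hm => ?_⟩
  refine Pool.Agent.Q56.TF.near_types hm (Q := fun c => 0 < c ∧ ¬ Regular ε V κ c.toNat)
    (fun ι _ v hv hE S hS => h1 N hN ι v hv hE S hS) _ (filter_subset _ _) ?_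
  intro m hm
  obtain ⟨_, q, hq0, hq2, hq3⟩ := mem_filter.1 hm
  exact ⟨q, by exact_mod_cast hq2, by exact_mod_cast hq0, by simpa using hq3⟩

lemma sequence_of {f : ℕ → ℝ} {e : ℝ} (h : Pool.Agent.Q56.TF.Base f e) (he : 1 ≤ e) (A B C V κ U : ℕ) (ε : ℝ)
    (hε : 0 < ε) : Sequence ε A B C V κ U f e := by
  obtain ⟨p, B', C', N₀, h1⟩ := Pool.Agent.Q56.TF.near_base h he A B C
  obtain ⟨N₁, h2⟩ := holds_of A B' V κ U (p + 1) C' (by omega) ε hε
  exact ⟨N₀ + N₁, fun N hN x hx1 hx2 β hβ =>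
    h2 N (by omega) x _ ((h1 N (by omega) x hx1 hx2 β hβ).order (by omega))⟩

/-- Let `A`, `B`, `C`, `V`, `κ`, `U` and `ε > 0` be fixed.

* For every `p` the following holds for all large `N`. Let `r 1, ..., r x` be an arbitrary family of real numbers in
  `[-B N, B N]` with an energy of order `p` of at most `log ^ C N` times `x ^ (2 p) / N` (the minimal possible order
  of magnitude). For all `m ≤ x` with at most `x / log ^ U N` exceptions, ALL moduli `q ≥ 1` with
  `|q - r m| ≤ log ^ A N` satisfy: for EVERY even multiple `n` of `q` with `0 < n ≤ q log ^ κ q` and every interval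
  `(y₁, y₂]` with `y₂ ≤ n` and of length at least `n / log ^ V n` the number of the primes `p` for which `n - p` is a
  prime is `𝔖(n) (y₂ - y₁) / log ^ 2 n` up to a relative error of at most `ε`; and for every real
  `X ≤ q log ^ κ q` there is NO even multiple `n` of `q` in `(X / 2, X]` with `g(n) < n / (2 log ^ 2 n)` (the
  assertion of the problem for `q` and `X`, with `δ = 1 / 2` and without exceptions).
* This holds for `r m = β + κ₀ f m`, `m ≤ x`, where `f` is a fixed nonconstant polynomial with integer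
  coefficients, of degree `d`, `κ₀ ≠ 0` is a fixed real number, `β` is any real number with `|β| ≤ B N`, and
  `N / log ^ C N ≤ x ^ d ≤ B N`.
* This holds for `r m = β + ∑ w_y m ^ y` (a sum over a finite set `F` of real exponents `y`), if the largest
  exponent `e` is greater than `1` and not an integer, `w_e ≠ 0`, `|β| ≤ B N` and `N / log ^ C N ≤ x ^ e ≤ B N`; for
  instance for `r m = β + m ^ e`. -/
theorem result (A B C V κ U : ℕ) (ε : ℝ) (hε : 0 < ε) :
    (∀ p : ℕ, ∃ N₀ : ℕ, ∀ N : ℕ, N₀ ≤ N → ∀ (x : ℕ) (r : ℕ → ℝ), (∀ m ∈ Icc 1 x, |r m| ≤ B * N) →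
      (energy p x r : ℝ) * N ≤ Real.log N ^ C * (x : ℝ) ^ (2 * p) → Holds ε A V κ U N x r) ∧
    (∀ f : Polynomial ℤ, 1 ≤ f.natDegree → ∀ κ₀ : ℝ, κ₀ ≠ 0 →
      Sequence ε A B C V κ U (fun m => κ₀ * ((f.eval (m : ℤ) : ℤ) : ℝ)) f.natDegree) ∧
    (∀ (F : Finset ℝ) (w : ℝ → ℝ) (e : ℝ), e ∈ F → (∀ y ∈ F, y ≤ e) → w e ≠ 0 → 1 < e → (∀ k : ℕ, e ≠ k) →
      Sequence ε A B C V κ U (fun m => ∑ y ∈ F, w y * (m : ℝ) ^ y) e) := by
  classical
  refine ⟨fun p => ?_, fun f hd κ₀ hκ => ?_, fun F w e heF hmax hwe he hen => ?_⟩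
  · obtain ⟨B', C', N₀, h1⟩ := Pool.Agent.Q56.TF.near_gen p A B C
    obtain ⟨N₁, h2⟩ := holds_of A B' V κ U (p + 1) C' (by omega) ε hε
    exact ⟨N₀ + N₁, fun N hN x r hr hE => h2 N (by omega) x _ ((h1 N (by omega) x r hr hE).order (by omega))⟩
  · exact sequence_of ((Pool.Agent.Q56.TF.base_poly f hd).dil hκ) (by exact_mod_cast hd) A B C V κ U ε hε
  · exact sequence_of (Pool.Agent.Q56.TF.base_gp F w e heF hmax hwe he hen) he.le A B C V κ U ε hε

end Pool.Agent.Results.MP_92f640_nt.ModuliNearRealSequences
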