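import Pool.Agent.Q20.AS.MainD

set_option autoImplicit false

/-!
# Even multiples of `q` whose Goldbach representations avoid any `C (φ(q) / q) log x` given primes

Let `C`, `δ > 0`, `K` be given. For all large `x`, EVERY modulus `1 ≤ q ≤ x ^ K`, EVERY set `A` of at most
`C (φ(q) / q) log x` integers `|a| ≤ x ^ K` and every `y ≤ x ^ K` there is an even multiple `n = 2 q t` of `q`, `t` prime to `2 q`, with
`2 q y ≤ n ≤ 2 q (y + x ^ δ)` such that for all `a ∈ A` the number `n - a` has a prime factor `p ≤ x ^ δ` with `p ∤ 2 q`,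
`p < |n - a|`. So no element of `A` is a summand of a representation `n = p₁ + p₂` with `p₁`, `p₂` prime.

In particular: for `4 q x ^ δ ≤ x` the interval `(x / 2, x]` contains such an even multiple `n` of `q`.

Proof: `Pool.Agent.Q20.AS.formsD`, after the square weights of the project AC of the starting repository (helper410 and the
helpers of that project).
-/

namespace Pool.Agent.Results.MP_92f640_nt.MultiplesAvoidGivenPrimes

open Filter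

theorem local_version (C δ : ℝ) (K : ℕ) (hδ : 0 < δ) : ∀ᶠ x : ℕ in atTop, ∀ q : ℕ, 1 ≤ q → q ≤ x ^ K →
    ∀ A : Finset ℤ, (∀ a ∈ A, |a| ≤ (x : ℤ) ^ K) →
    (A.card : ℝ) ≤ C * ((q.totient : ℝ) / q) * Real.log x →
    ∀ y : ℕ, y ≤ x ^ K → ∃ t : ℕ, y ≤ t ∧ (t : ℝ) ≤ y + (x : ℝ) ^ δ ∧ Nat.Coprime t (2 * q) ∧
      ∀ a ∈ A, ∃ p : ℕ, p.Prime ∧ ¬ p ∣ 2 * q ∧ (p : ℝ) ≤ (x : ℝ) ^ δ ∧
        (p : ℤ) ∣ ((2 * q * t : ℕ) : ℤ) - a ∧ (p : ℤ) < |((2 * q * t : ℕ) : ℤ) - a| := by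
  classical
  obtain ⟨X₀, hX₀⟩ := Pool.Agent.Q20.AS.formsD (2 * max C 0) δ (K + 1) hδ
  filter_upwards [eventually_ge_atTop X₀, eventually_ge_atTop 2] with x hm hm2 q hq1 hqK J hJ hJc y hy
  have hx0 : (0 : ℝ) < x := by exact_mod_cast (by omega : 0 < x)
  have hq0 : (0 : ℝ) < q := by exact_mod_cast hq1
  have hqK2 : 2 * q ≤ x ^ (K + 1) := by
    rw [pow_succ, mul_comm]
    exact Nat.mul_le_mul hqK hm2
  have hlog : 0 ≤ Real.log (x : ℝ) := Real.log_natCast_nonneg x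
  have hφ : q.totient ≤ (2 * q).totient := Nat.le_of_dvd (Nat.totient_pos.mpr (by omega))
    (Nat.totient_dvd_of_dvd (Dvd.intro_left 2 rfl))
  have hA : ∀ l ∈ J.image (fun a : ℤ => (2 * q, -a)), 1 ≤ l.1 ∧
      (∀ p : ℕ, p.Prime → p ∣ l.1 → p ∣ 2 * q) ∧ l.1 ≤ x ^ (K + 1) ∧ |l.2| ≤ (x : ℤ) ^ (K + 1) := by
    intro l hl
    rw [Finset.mem_image] at hl
    obtain ⟨j, hj, rfl⟩ := hl
    refine ⟨by simp only; omega, fun p _ hd => hd, hqK2, ?_⟩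
    simp only
    rw [abs_neg, pow_succ]
    refine (hJ j hj).trans ?_
    exact le_mul_of_one_le_right (by positivity) (by exact_mod_cast (by omega : 1 ≤ x))
  have hB : ((J.image (fun a : ℤ => (2 * q, -a))).card : ℝ) * ((2 * q : ℕ) : ℝ) ≤
      (2 * max C 0) * (2 * q).totient * Real.log x := by
    have h6 : ((J.image (fun a : ℤ => (2 * q, -a))).card : ℝ) ≤ J.card := by
      exact_mod_cast Finset.card_image_le
    have h7 : (q.totient : ℝ) ≤ (2 * q).totient := by exact_mod_cast hφ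
    push_cast
    calc ((J.image (fun a : ℤ => (2 * q, -a))).card : ℝ) * (2 * q) ≤ J.card * (2 * q) :=
          mul_le_mul_of_nonneg_right h6 (by positivity)
      _ ≤ (C * ((q.totient : ℝ) / q) * Real.log x) * (2 * q) :=
          mul_le_mul_of_nonneg_right hJc (by positivity)
      _ = (2 * C) * q.totient * Real.log x := by field_simp
      _ ≤ (2 * max C 0) * (2 * q).totient * Real.log x := by
          have := le_max_left C 0
          have h9 : 0 ≤ max C 0 := le_max_right C 0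
          gcongr
  obtain ⟨t, h1, h2, h3, -, h5⟩ := hX₀ x hm (2 * q) (by omega) hqK2
    (J.image (fun a : ℤ => (2 * q, -a))) hA hB y
    (hy.trans (Nat.pow_le_pow_right (by omega) (by omega))) ∅ (by simp; positivity)
  refine ⟨t, h1, h2, h3, fun j hj => ?_⟩
  obtain ⟨p, a1, a2, a3, a4, a5⟩ := h5 _ (Finset.mem_image_of_mem _ hj)
  have e : ((2 * q : ℕ) : ℤ) * (t : ℤ) + -j = ((2 * q * t : ℕ) : ℤ) - j := by push_cast; ring
  simp only at a4 a5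
  rw [e] at a4 a5
  exact ⟨p, a1, a2, a3, a4, a5⟩

/-- an even multiple of `q` in `(x / 2, x]` none of whose Goldbach representations uses a prime of `A` -/
theorem goldbach (C δ : ℝ) (hδ : 0 < δ) : ∀ᶠ x : ℕ in atTop, ∀ q : ℕ, 1 ≤ q →
    8 * (q : ℝ) * ((x : ℝ) ^ δ + 1) ≤ x → ∀ A : Finset ℕ, (∀ a ∈ A, a ≤ x) →
    (A.card : ℝ) ≤ C * ((q.totient : ℝ) / q) * Real.log x →
    ∃ n : ℕ, x < 2 * n ∧ n ≤ x ∧ Even n ∧ q ∣ n ∧
      ∀ p₁ p₂ : ℕ, p₁.Prime → p₂.Prime → p₁ + p₂ = n → p₁ ∉ A ∧ p₂ ∉ A := by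
  classical
  filter_upwards [local_version C δ 1 hδ, eventually_ge_atTop 2] with x hx hx2 q hq1 hq A hA hAc
  have hx0 : (0 : ℝ) < x := by exact_mod_cast (by omega : 0 < x)
  have hq0 : (0 : ℝ) < q := by exact_mod_cast hq1
  have hxd : (0 : ℝ) ≤ (x : ℝ) ^ δ := by positivity
  have hqx : 8 * q ≤ x := by
    have h1 : 8 * (q : ℝ) ≤ x := by nlinarith
    exact_mod_cast h1
  obtain ⟨t, h1, h2, -, h4⟩ := hx q hq1 (by rw [pow_one]; omega) (A.image (fun a : ℕ => (a : ℤ))) (by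
      intro a ha
      rw [Finset.mem_image] at ha
      obtain ⟨b, hb, rfl⟩ := ha
      rw [abs_of_nonneg (by positivity), pow_one]
      exact_mod_cast hA b hb) (by
      refine le_trans ?_ hAc
      exact_mod_cast Finset.card_image_le) (x / (4 * q) + 1) (by
      rw [pow_one]
      have h5 : x / (4 * q) ≤ x / 4 := Nat.div_le_div_left (by omega) (by omega)
      omega)
  have hlow : x < 4 * q * t := by
    have h5 : x < 4 * q * (x / (4 * q) + 1) := Nat.lt_mul_div_succ x (by omega)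
    exact lt_of_lt_of_le h5 (Nat.mul_le_mul_left _ h1)
  have hup : 2 * q * t ≤ x := by
    have h5 : ((x / (4 * q) : ℕ) : ℝ) ≤ (x : ℝ) / (4 * q) := by
      have := @Nat.cast_div_le ℝ _ _ _ x (4 * q)
      push_cast at this
      exact this
    have h6 : (t : ℝ) ≤ (x : ℝ) / (4 * q) + 1 + (x : ℝ) ^ δ := by
      push_cast at h2
      linarith
    have h7 : ((2 * q * t : ℕ) : ℝ) ≤ x := by
      push_cast
      calc 2 * (q : ℝ) * t ≤ 2 * q * ((x : ℝ) / (4 * q) + 1 + (x : ℝ) ^ δ) :=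
            mul_le_mul_of_nonneg_left h6 (by positivity)
        _ = x / 2 + 2 * q * ((x : ℝ) ^ δ + 1) := by field_simp; ring
        _ ≤ x := by nlinarith
    exact_mod_cast h7
  have key : ∀ p₁ p₂ : ℕ, p₁.Prime → p₂.Prime → p₁ + p₂ = 2 * q * t → p₁ ∉ A := by
    intro p₁ p₂ hp₁ hp₂ hsum hmem
    obtain ⟨p, a1, -, -, a4, a5⟩ := h4 (p₁ : ℤ) (Finset.mem_image_of_mem _ hmem)
    have e : ((2 * q * t : ℕ) : ℤ) - (p₁ : ℤ) = (p₂ : ℤ) := by
      rw [← hsum]; push_cast; ring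
    rw [e] at a4 a5
    rw [abs_of_nonneg (by positivity)] at a5
    have h8 : p ∣ p₂ := by exact_mod_cast a4
    have h9 : p < p₂ := by exact_mod_cast a5
    rcases (Nat.dvd_prime hp₂).mp h8 with h | h
    · exact a1.one_lt.ne' h
    · omega
  refine ⟨2 * q * t, ?_, hup, ⟨q * t, by ring⟩, ⟨2 * t, by ring⟩, fun p₁ p₂ hp₁ hp₂ hs => ?_⟩
  · calc x < 4 * q * t := hlow
      _ = 2 * (2 * q * t) := by ring
  · exact ⟨key p₁ p₂ hp₁ hp₂ hs, key p₂ p₁ hp₂ hp₁ (by rw [add_comm]; exact hs)⟩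

theorem result :
    (∀ (C δ : ℝ) (K : ℕ), 0 < δ → ∀ᶠ x : ℕ in atTop, ∀ q : ℕ, 1 ≤ q → q ≤ x ^ K →
      ∀ A : Finset ℤ, (∀ a ∈ A, |a| ≤ (x : ℤ) ^ K) →
      (A.card : ℝ) ≤ C * ((q.totient : ℝ) / q) * Real.log x →
      ∀ y : ℕ, y ≤ x ^ K → ∃ t : ℕ, y ≤ t ∧ (t : ℝ) ≤ y + (x : ℝ) ^ δ ∧ Nat.Coprime t (2 * q) ∧
        ∀ a ∈ A, ∃ p : ℕ, p.Prime ∧ ¬ p ∣ 2 * q ∧ (p : ℝ) ≤ (x : ℝ) ^ δ ∧
          (p : ℤ) ∣ ((2 * q * t : ℕ) : ℤ) - a ∧ (p : ℤ) < |((2 * q * t : ℕ) : ℤ) - a|) ∧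
    ∀ C δ : ℝ, 0 < δ → ∀ᶠ x : ℕ in atTop, ∀ q : ℕ, 1 ≤ q →
      8 * (q : ℝ) * ((x : ℝ) ^ δ + 1) ≤ x → ∀ A : Finset ℕ, (∀ a ∈ A, a ≤ x) →
      (A.card : ℝ) ≤ C * ((q.totient : ℝ) / q) * Real.log x →
      ∃ n : ℕ, x < 2 * n ∧ n ≤ x ∧ Even n ∧ q ∣ n ∧
        ∀ p₁ p₂ : ℕ, p₁.Prime → p₂.Prime → p₁ + p₂ = n → p₁ ∉ A ∧ p₂ ∉ A :=
  ⟨local_version, goldbach⟩

end Pool.Agent.Results.MP_92f640_nt.MultiplesAvoidGivenPrimes
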